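import Pool.Agent.Lib.HS68.Fun
import Pool.Agent.Lib.HS32.EKit

/-! The curvature of a sum of two Hermitian metrics, in coordinates. -/

open scoped Classical Topology ContDiff ComplexOrder Matrix
open Set Complex Filter Matrix

noncomputable section

namespace Pool.Agent.Lib.GH76

open Pool.Agent.Lib.SV (E)
open Pool.Agent.Lib.HS32 Pool.Agent.Lib.HS68

variable {n : ℕ} {z : E n} {A B G h : E n → Mat n}

theorem loc_add (hA : Loc A z) (hB : Loc B z) : Loc (fun w => A w + B w) z :=
  ⟨hA.sm.add hB.sm, by filter_upwards [hA.herm, hB.herm] with w h1 h2 using h1.add h2,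
    hA.pos.add hB.pos⟩

theorem loc_smul (hA : Loc A z) {s : ℝ} (hs : 0 < s) : Loc (fun w => s • A w) z :=
  ⟨SmM.rsmul contDiffAt_const hA.sm, by
    filter_upwards [hA.herm] with w h1
    rw [IsHermitian, conjTranspose_smul, h1.eq, star_trivial], hA.pos.smul hs⟩

theorem dM_rsmul (hA : SmM A z) (s : ℝ) (k : Fin n) : dM k (fun w => s • A w) z = s • dM k A z := by
  ext i j
  simpa only [dM_apply, Matrix.smul_apply, real_smul] using dz_const_mul (s : ℂ) (hA.diff i j)

theorem inv_rsmul {T : Mat n} {s : ℝ} (hs : s ≠ 0) : (s • T)⁻¹ = s⁻¹ • T⁻¹ := by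
  by_cases h0 : IsUnit T.det
  · refine inv_eq_left_inv ?_
    rw [Matrix.smul_mul, Matrix.mul_smul, smul_smul, inv_mul_cancel₀ hs, one_smul,
      nonsing_inv_mul _ h0]
  · have : ¬IsUnit (s • T).det := by
      rw [show s • T = (s : ℂ) • T by ext; simp, det_smul]
      exact fun h1 => h0 (isUnit_of_mul_isUnit_right h1)
    rw [nonsing_inv_apply_not_isUnit _ h0, nonsing_inv_apply_not_isUnit _ this, smul_zero]

theorem gam_rsmul_ev (hA : SmM A z) {s : ℝ} (hs : s ≠ 0) (k : Fin n) :
    gam (fun w => s • A w) k =ᶠ[𝓝 z] gam A k := by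
  filter_upwards [hA.ev_diff] with w hw
  have e : dM k (fun w => s • A w) w = s • dM k A w := by
    ext i j
    simpa only [dM_apply, Matrix.smul_apply, real_smul] using dz_const_mul (s : ℂ) (hw i j)
  rw [gam, gam, e, inv_rsmul hs, Matrix.smul_mul, Matrix.mul_smul, smul_smul, inv_mul_cancel₀ hs,
    one_smul]

theorem gam_rsmul (hA : SmM A z) {s : ℝ} (hs : s ≠ 0) (k : Fin n) :
    gam (fun w => s • A w) k z = gam A k z := (gam_rsmul_ev hA hs k).eq_of_nhds

theorem th_rsmul (hA : SmM A z) {s : ℝ} (hs : s ≠ 0) (k l : Fin n) :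
    th (fun w => s • A w) k l z = th A k l z := by
  rw [th, th, dMb_congr (gam_rsmul_ev hA hs k)]

theorem df_rsmul (hA : SmM A z) {s : ℝ} (hs : s ≠ 0) (k : Fin n) :
    df G (fun w => s • A w) k z = df G A k z := by rw [df, df, gam_rsmul hA hs]

theorem dM_add_ev (hA : SmM A z) (hB : SmM B z) (k : Fin n) :
    dM k (fun w => A w + B w) =ᶠ[𝓝 z] fun w => dM k A w + dM k B w := by
  filter_upwards [hA.ev_diff, hB.ev_diff] with w h1 h2
  ext i j
  exact dz_add (h1 i j) (h2 i j)

/-- The connection of the sum. -/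
theorem mul_gam_add (hA : Loc A z) (hB : Loc B z) (k : Fin n) :
    (A z + B z) * gam (fun w => A w + B w) k z = A z * gam A k z + B z * gam B k z := by
  rw [← (loc_add hA hB).dM_eq, ← hA.dM_eq, ← hB.dM_eq, dM_add hA.sm hB.sm]

theorem gam_add (hA : Loc A z) (hB : Loc B z) (k : Fin n) :
    gam (fun w => A w + B w) k z = gam B k z + (A z + B z)⁻¹ * A z * df A B k z := by
  have hu : IsUnit (A z + B z).det := (loc_add hA hB).det_ne.isUnit
  have e := congrArg ((A z + B z)⁻¹ * ·) (mul_gam_add hA hB k)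
  simp only [nonsing_inv_mul_cancel_left _ _ hu] at e
  have e1 : gam B k z = (A z + B z)⁻¹ * ((A z + B z) * gam B k z) :=
    (nonsing_inv_mul_cancel_left _ _ hu).symm
  rw [e, df]
  conv_rhs => rw [e1]
  conv_rhs => enter [2, 2, 2]; rw [← e1]
  noncomm_ring

theorem sum_alg {A B Mi a b D D' a' b' : Mat n} (h1 : (A + B) * Mi = 1) (h2 : Mi * (A + B) = 1)
    (e : a = b + D) (e' : a' = b' + D') :
    (a' * A + b' * B) * Mi * (A * a + B * b) =
      a' * A * a + b' * B * b - D' * (A * Mi * B) * D := by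
  have f1 : a' * A + b' * B = b' * (A + B) + D' * A := by rw [e']; noncomm_ring
  have f2 : A * a + B * b = (A + B) * b + A * D := by rw [e]; noncomm_ring
  have f3 : A * Mi * B = A - A * Mi * A := by
    have : A * Mi * B + A * Mi * A = A * (Mi * (A + B)) := by noncomm_ring
    rw [eq_sub_iff_add_eq, this, h2, Matrix.mul_one]
  have f4 : (b' * (A + B) + D' * A) * Mi * ((A + B) * b + A * D) =
      b' * ((A + B) * Mi) * (A + B) * b + b' * ((A + B) * Mi) * A * D +
        D' * A * (Mi * (A + B)) * b + D' * (A * Mi * A) * D := by noncomm_ring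
  rw [f1, f2, f4, h1, h2, f3, e, e']
  noncomm_ring

/-- The curvature of the sum. -/
theorem sum_th (hA : Loc A z) (hB : Loc B z) (k l : Fin n) :
    (A z + B z) * th (fun w => A w + B w) k l z = A z * th A k l z + B z * th B k l z -
      (df A B l z)ᴴ * (A z * (A z + B z)⁻¹ * B z) * df A B k z := by
  have hM := loc_add hA hB
  have hu : IsUnit (A z + B z).det := hM.det_ne.isUnit
  have e1 := hM.mul_th k l
  have e2 : (gam (fun w => A w + B w) l z)ᴴ * (A z + B z) =
      (gam A l z)ᴴ * A z + (gam B l z)ᴴ * B z := by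
    have := congrArg conjTranspose (mul_gam_add hA hB l)
    rwa [conjTranspose_mul, conjTranspose_add (A z * _), conjTranspose_mul, conjTranspose_mul,
      hM.pos.isHermitian.eq, hA.pos.isHermitian.eq, hB.pos.isHermitian.eq] at this
  have e3 : (gam (fun w => A w + B w) l z)ᴴ * (A z + B z) * gam (fun w => A w + B w) k z =
      (gam (fun w => A w + B w) l z)ᴴ * (A z + B z) * (A z + B z)⁻¹ *
        ((A z + B z) * gam (fun w => A w + B w) k z) := by
    rw [Matrix.mul_assoc _ (A z + B z)⁻¹, nonsing_inv_mul_cancel_left _ _ hu]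
  rw [e1, e3, e2, mul_gam_add hA hB, dMb_congr (dM_add_ev hA.sm hB.sm k),
    dMb_add (hA.sm.dM k) (hB.sm.dM k), hA.mul_th, hB.mul_th,
    sum_alg (D := df A B k z) (D' := (df A B l z)ᴴ) (mul_nonsing_inv _ hu) (nonsing_inv_mul _ hu)
      (by rw [df]; abel) (by rw [df, conjTranspose_sub]; abel)]
  abel

theorem th_add (hA : Loc A z) (hB : Loc B z) (k l : Fin n) :
    th (fun w => A w + B w) k l z = th A k l z - (A z + B z)⁻¹ * B z * th A k l z +
      (A z + B z)⁻¹ * B z * th B k l z -
      (A z + B z)⁻¹ * (df A B l z)ᴴ * (A z * (A z + B z)⁻¹ * B z) * df A B k z := by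
  have hu : IsUnit (A z + B z).det := (loc_add hA hB).det_ne.isUnit
  have e := congrArg ((A z + B z)⁻¹ * ·) (sum_th hA hB k l)
  simp only [nonsing_inv_mul_cancel_left _ _ hu] at e
  have e1 : th A k l z = (A z + B z)⁻¹ * ((A z + B z) * th A k l z) :=
    (nonsing_inv_mul_cancel_left _ _ hu).symm
  rw [e]
  nth_rw 2 [e1]
  noncomm_ring

/-- The Laplacian of `log det (A + B) - log det A` for a Kähler metric `A`. -/
theorem lap_sum (hA : Loc A z) (hK : Kl A z) (hB : Loc B z) :
    ((A z)⁻¹ * (hess (ld fun w => A w + B w) z - hess (ld A) z)).trace =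
      ((A z + B z)⁻¹ * B z * ((A z)⁻¹ * ricF A z)).trace -
      ∑ k, ∑ l, (A z)⁻¹ k l * ((A z + B z)⁻¹ * B z * th B k l z).trace +
      ∑ k, ∑ l, (A z)⁻¹ k l * ((A z + B z)⁻¹ * (df A B l z)ᴴ *
        (A z * (A z + B z)⁻¹ * B z) * df A B k z).trace := by
  have hM := loc_add hA hB
  have e : ∀ l k, (hess (ld fun w => A w + B w) z - hess (ld A) z) l k =
      (th A k l z).trace - (th (fun w => A w + B w) k l z).trace := fun l k => by
    rw [← hM.ric_apply, ← hA.ric_apply]
    simp only [ricF, Matrix.sub_apply, Matrix.neg_apply]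
    ring
  rw [← hA.ctr_th hK]
  simp only [Matrix.mul_sum, trace_sum, Matrix.mul_smul, trace_smul, smul_eq_mul,
    ← Finset.sum_sub_distrib, ← Finset.sum_add_distrib]
  rw [trace]
  refine Finset.sum_congr rfl fun k _ => ?_
  rw [diag_apply, Matrix.mul_apply]
  refine Finset.sum_congr rfl fun l _ => ?_
  rw [e, th_add hA hB]
  simp only [trace_sub, trace_add]
  ring

/-- The covariant derivative of `W = (A + B)⁻¹ B` for the connection of `B`. -/
theorem dM_W (hA : Loc A z) (hB : Loc B z) (k : Fin n) :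
    dM k (fun w => (A w + B w)⁻¹ * B w) z =
      (A z + B z)⁻¹ * B z * gam B k z - gam B k z * ((A z + B z)⁻¹ * B z) -
        (A z + B z)⁻¹ * A z * df A B k z * ((A z + B z)⁻¹ * B z) := by
  rw [(loc_add hA hB).dM_quot hB, gam_add hA hB]
  noncomm_ring

/-- The `(0,1)` derivative of `W = (A + B)⁻¹ B`. -/
theorem dMb_W (hA : Loc A z) (hB : Loc B z) (l : Fin n) :
    dMb l (fun w => (A w + B w)⁻¹ * B w) z =
      -((A z + B z)⁻¹ * (df A B l z)ᴴ * (A z * (A z + B z)⁻¹ * B z)) := by
  have hM := loc_add hA hB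
  have e : df (fun w => A w + B w) B l z = (A z + B z)⁻¹ * A z * df A B l z := by
    rw [df, gam_add hA hB]; abel
  rw [hM.dMb_quot hB, e, conjTranspose_mul, conjTranspose_mul, hA.pos.isHermitian.eq,
    hM.pos.isHermitian.inv.eq]
  noncomm_ring

end Pool.Agent.Lib.GH76
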