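import Pool.Agent.Lib.HS32.MAll

/-! Exponential integrability of quasi-plurisubharmonic functions on a compact manifold. -/

open scoped Classical Topology ENNReal ContDiff ComplexOrder Matrix
open Set MeasureTheory Complex Metric Filter

noncomputable section

namespace Pool.Agent.Lib.GH76

open Pool.Agent.Lib.SV (E)
open Pool.Agent.Lib.HS32 Pool.Agent.Lib.HS66

variable {n : ℕ}

theorem pt_exp {U c α : ℝ} {D : ℕ → ℝ} (hα : 0 ≤ α) (hD : ∀ k, 0 ≤ D k)
    (h : ∀ k : ℕ, U ≤ D k + c * (1 + k)) (N : ℕ) (hN : U ≤ c * (1 + N) + 1) :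
    Real.exp (α * U) ≤ Real.exp (α * (c + 1)) +
      ∑ k ∈ Finset.range N, Real.exp (α * (c * (2 + k) + 1)) * D k := by
  induction N with
  | zero => simpa using mul_le_mul_of_nonneg_left (by simpa using hN) hα
  | succ N ih =>
    have hs : 0 ≤ ∑ k ∈ Finset.range N, Real.exp (α * (c * (2 + k) + 1)) * D k :=
      Finset.sum_nonneg fun k _ => mul_nonneg (Real.exp_pos _).le (hD k)
    rw [Finset.sum_range_succ]
    by_cases h1 : U ≤ c * (1 + N) + 1
    · linarith [ih h1, mul_nonneg (Real.exp_pos (α * (c * (2 + N) + 1))).le (hD N)]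
    · have h2 : 1 ≤ D N := by linarith [h N, not_le.1 h1]
      have h3 : Real.exp (α * U) ≤ Real.exp (α * (c * (2 + N) + 1)) :=
        Real.exp_le_exp.2 (mul_le_mul_of_nonneg_left (by push_cast at hN; linarith) hα)
      have h4 := le_mul_of_one_le_right (Real.exp_pos (α * (c * (2 + N) + 1))).le h2
      linarith [Real.exp_pos (α * (c + 1))]

theorem submean_s {g : E n → ℝ} (hg : Ker g 1) {w : E n → ℝ} {x : E n} {A s : ℝ} (hA : 0 ≤ A)
    (hw : ∀ z ∈ closedBall x 1, ContDiffAt ℝ 2 w z ∧ ∀ v, -(A * ‖v‖ ^ 2) ≤ lv w z v)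
    (hs : s ∈ Icc (0 : ℝ) 1) : w x ≤ (∫ t, g t • w (x - s • t)) + A * s ^ 2 / 4 := by
  obtain ⟨φ, φ', h1, h2, h3⟩ := hg.mono hA one_pos one_pos (by rwa [one_mul])
  have h4 : MonotoneOn φ (Icc 0 1) := monotoneOn_of_deriv_nonneg (convex_Icc 0 1)
    (fun s _ => (h1 s).continuousAt.continuousWithinAt)
    (fun s _ => (h1 s).differentiableAt.differentiableWithinAt) fun s hs => by
      rw [interior_Icc] at hs
      have := h2 (left_mem_Icc.2 zero_le_one) (Ioo_subset_Icc_self hs) hs.1.le
      rw [(h1 s).deriv]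
      exact nonneg_of_mul_nonneg_right (by simpa [mul_comm] using this) hs.1
  have h5 := h4 (left_mem_Icc.2 zero_le_one) hs hs.1
  rw [h3 0 (left_mem_Icc.2 zero_le_one), h3 s hs] at h5
  simpa [integral_mul_const, hg.int] using h5

/-- A Lipschitz cut-off function. -/
def cut (z : E n) : ℝ := max 0 (min 1 (2 - ‖z‖))

theorem cut_cont : Continuous (cut (n := n)) := by unfold cut; fun_prop

theorem cut_nn (z : E n) : 0 ≤ cut z := le_max_left _ _

theorem cut_zero {z : E n} (h : 2 ≤ ‖z‖) : cut z = 0 :=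
  max_eq_left ((min_le_right _ _).trans (by linarith))

theorem cut_one {z : E n} (h : ‖z‖ ≤ 1) : cut z = 1 := by
  rw [cut, min_eq_left (by linarith), max_eq_right zero_le_one]

theorem cut_lip (y v : E n) : cut y - cut (y + v) ≤ ‖v‖ := by
  have h1 := norm_add_le y v
  have h2 := norm_nonneg v
  simp only [cut, max_def, min_def]
  split_ifs <;> linarith

theorem cut_int {W : E n → ℝ} (hW : Continuous W) (v : E n) :
    Integrable fun y => cut (y + v) * W y :=
  ((cut_cont.comp (continuous_id.add continuous_const)).mul hW).integrable_of_hasCompactSupport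
    (HasCompactSupport.intro (isCompact_closedBall 0 (2 + ‖v‖)) fun y hy => by
      have h1 := norm_sub_le (y + v) v
      rw [add_sub_cancel_right] at h1
      have h2 := not_le.1 (mem_closedBall_zero_iff.not.1 hy)
      exact mul_eq_zero_of_left (cut_zero (z := y + v) (by linarith)) _)

theorem avg_l1 {g W : E n → ℝ} (hg : Ker g 1) (hW : Continuous W)
    (h0 : ∀ z ∈ closedBall (0 : E n) 3, W z ≤ 0) {s : ℝ} (hs : s ∈ Icc (0 : ℝ) 1) :
    Integrable (fun x => cut x * ∫ t, g t • W (x - s • t)) ∧
    ∫ x, cut x * ∫ t, g t • W (x - s • t) ≤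
      (∫ x, cut x * W x) + s * ∫ z in closedBall (0 : E n) 3, -W z := by
  have hc := cut_cont (n := n)
  have hgc := hg.cont
  have hF : Integrable (Function.uncurry fun x t : E n => cut x * (g t • W (x - s • t)))
      (volume.prod volume) := by
    refine Continuous.integrable_of_hasCompactSupport (by fun_prop) (HasCompactSupport.intro
      ((isCompact_closedBall 0 2).prod (isCompact_closedBall 0 1)) fun p hp => ?_)
    by_cases h : g p.2 = 0
    · simp [Function.uncurry, h]
    · have h1 : ¬‖p.1‖ ≤ 2 := fun h1 =>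
        hp ⟨mem_closedBall_zero_iff.2 h1, mem_closedBall_zero_iff.2 (hg.supp _ h)⟩
      simp [Function.uncurry, cut_zero (not_le.1 h1).le]
  have e1 : (fun x => cut x * ∫ t, g t • W (x - s • t)) =
      fun x => ∫ t, cut x * (g t • W (x - s • t)) := funext fun x => (integral_const_mul _ _).symm
  rw [e1]
  refine ⟨hF.integral_prod_left, ?_⟩
  rw [integral_integral_swap hF]
  have hI : Integrable ((closedBall (0 : E n) 3).indicator fun z => -W z) :=
    (integrable_indicator_iff measurableSet_closedBall).2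
      (hW.neg.continuousOn.integrableOn_compact (isCompact_closedBall 0 3))
  have h1 := integral_mono hF.integral_prod_right (hg.integrable.mul_const
    ((∫ x, cut x * W x) + s * ∫ z in closedBall (0 : E n) 3, -W z)) fun t => by
    by_cases h : g t = 0
    · simp [h]
    have h2 : ‖s • t‖ ≤ s := by
      rw [norm_smul, Real.norm_of_nonneg hs.1]
      exact mul_le_of_le_one_right hs.1 (hg.supp t h)
    simp only [Function.uncurry, smul_eq_mul, mul_left_comm _ (g t), integral_const_mul]
    refine mul_le_mul_of_nonneg_left ?_ (hg.nn t)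
    have h3 := cut_int hW 0
    simp only [add_zero] at h3
    rw [← integral_add_right_eq_self _ (s • t), ← integral_indicator measurableSet_closedBall,
      ← integral_const_mul, ← integral_add h3 (hI.const_mul s)]
    simp only [add_sub_cancel_right]
    refine integral_mono (cut_int hW _) (h3.add (hI.const_mul s)) fun y => ?_
    by_cases hy : y ∈ closedBall (0 : E n) 3
    · simp only [indicator_of_mem hy]
      nlinarith [cut_lip y (s • t), h0 y hy]
    · have h4 := not_le.1 (mem_closedBall_zero_iff.not.1 hy)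
      have h5 := norm_sub_le (y + s • t) (s • t)
      rw [add_sub_cancel_right] at h5
      simp only [indicator_of_notMem hy, cut_zero (z := y) (by linarith),
        cut_zero (z := y + s • t) (by linarith [hs.2])]
      simp
  rwa [integral_mul_const, hg.int, one_mul] at h1

theorem skoda_loc {A L : ℝ} (hA : 0 ≤ A) (hL : 0 ≤ L) : ∃ α C : ℝ, 0 < α ∧ 0 ≤ C ∧ ∀ w : E n → ℝ,
    (∀ z ∈ closedBall (0 : E n) 4, ContDiffAt ℝ 2 w z ∧ w z ≤ 0 ∧
      ∀ v, -(A * ‖v‖ ^ 2) ≤ lv w z v) → ∫ z in closedBall (0 : E n) 4, -w z ≤ L →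
    ∫ z in ball (0 : E n) 1, Real.exp (α * -w z) ≤ C := by
  obtain ⟨g, -, hg⟩ := exists_ker (n := n) one_pos
  obtain ⟨G, hG⟩ := hg.cpt.exists_bound_of_continuous hg.cont
  have hG0 : 0 ≤ G := (norm_nonneg _).trans (hG 0)
  set c : ℝ := 2 * (G * L + A * 1 ^ 2) + 1 with hcdef
  have hc : 0 < c := by positivity
  set α : ℝ := 1 / (2 * c) with hαdef
  have hα : 0 < α := by positivity
  have hαc : α * c = 1 / 2 := by rw [hαdef]; field_simp
  set q : ℝ := Real.exp (-(1 / 2))
  have hq0 : 0 ≤ q := (Real.exp_pos _).le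
  have hq1 : q < 1 := Real.exp_lt_one_iff.2 (by norm_num)
  have hX := cut_int (n := n) (W := fun _ => 1) continuous_const 0
  simp only [add_zero, mul_one] at hX
  have hX0 : 0 ≤ ∫ x : E n, cut x := integral_nonneg cut_nn
  set K : ℝ := L + A / 4 * ∫ x : E n, cut x
  have hK : 0 ≤ K := by positivity
  refine ⟨α, volume.real (ball (0 : E n) 1) * Real.exp (α * (c + 1)) +
    Real.exp (1 + α) * K * (1 - q)⁻¹, hα, by
      have := sub_pos.2 hq1
      positivity, fun w hw hwL => ?_⟩
  have hw0 : ContinuousOn w (closedBall 0 4) := fun z hz =>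
    (hw z hz).1.continuousAt.continuousWithinAt
  have hsub : ∀ {x : E n} {a b : ℝ}, ‖x‖ ≤ a → a + b ≤ 4 → closedBall x b ⊆ closedBall 0 4 :=
    fun {x a b} h1 h2 z hz => by
      rw [mem_closedBall] at hz ⊢
      linarith [dist_triangle z x 0, dist_zero_right x]
  have h34 : closedBall (0 : E n) 3 ⊆ closedBall 0 4 := closedBall_subset_closedBall (by norm_num)
  have hb14 : ball (0 : E n) 1 ⊆ closedBall 0 4 :=
    ball_subset_closedBall.trans (closedBall_subset_closedBall (by norm_num))
  set W : E n → ℝ := fun z => w ((4 / max 4 ‖z‖) • z) with hWdef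
  have hm : ∀ z : E n, 0 < max 4 ‖z‖ := fun z => lt_max_of_lt_left (by norm_num)
  have hW : Continuous W := hw0.comp_continuous
    ((continuous_const.div (by fun_prop) fun z => (hm z).ne').smul continuous_id) fun z => by
      rw [mem_closedBall_zero_iff, norm_smul, Real.norm_of_nonneg (div_pos four_pos (hm z)).le,
        div_mul_eq_mul_div, div_le_iff₀ (hm z)]
      exact mul_le_mul_of_nonneg_left (le_max_right _ _) (by norm_num)
  have hWw : ∀ z ∈ closedBall (0 : E n) 4, W z = w z := fun z hz => by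
    simp only [hWdef, max_eq_left (mem_closedBall_zero_iff.1 hz)]
    norm_num
  have hav : ∀ x : E n, ‖x‖ ≤ 2 → ∀ s ∈ Icc (0 : ℝ) 1,
      ∫ t, g t • W (x - s • t) = ∫ t, g t • w (x - s • t) := fun x hx s hs =>
    integral_congr_ae (.of_forall fun t => by
      by_cases h : g t = 0
      · simp [h]
      have h2 : ‖s • t‖ ≤ 1 := by
        rw [norm_smul, Real.norm_of_nonneg hs.1]
        exact mul_le_one₀ hs.2 (norm_nonneg _) (hg.supp t h)
      simp only [hWw (x - s • t)
        (mem_closedBall_zero_iff.2 ((norm_sub_le _ _).trans (by linarith)))])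
  have hL3 : ∫ z in closedBall (0 : E n) 3, -W z ≤ L := by
    rw [setIntegral_congr_fun measurableSet_closedBall (g := fun z => -w z)
      fun z hz => by simp only [hWw z (h34 hz)]]
    exact (setIntegral_mono_set (hw0.neg.integrableOn_compact (isCompact_closedBall 0 4))
      ((ae_restrict_mem measurableSet_closedBall).mono fun z hz => neg_nonneg.2 (hw z hz).2.1)
      h34.eventuallyLE).trans hwL
  set s : ℕ → ℝ := fun k => Real.exp (-k) with hsdef
  have hs0 : ∀ k, 0 < s k := fun k => Real.exp_pos _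
  have hs : ∀ k, s k ∈ Icc (0 : ℝ) 1 := fun k =>
    ⟨(hs0 k).le, Real.exp_le_one_iff.2 (neg_nonpos.2 k.cast_nonneg)⟩
  set D : ℕ → E n → ℝ := fun k x => (cut x * ∫ t, g t • W (x - s k • t)) - cut x * W x +
    A * s k ^ 2 / 4 * cut x with hD
  have hWi := cut_int hW 0
  simp only [add_zero] at hWi
  have hA1 := fun k => avg_l1 hg hW (fun z hz => (hWw z (h34 hz)).trans_le (hw z (h34 hz)).2.1)
    (hs k)
  have hDi : ∀ k, Integrable (D k) := fun k => ((hA1 k).1.sub hWi).add (hX.const_mul _)
  have hD0 : ∀ k x, 0 ≤ D k x := fun k x => by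
    by_cases hx : ‖x‖ ≤ 2
    · have h1 := submean_s hg (x := x) hA (fun z hz =>
        let a := hw z (hsub hx (by norm_num) hz); ⟨a.1, a.2.2⟩) (hs k)
      simp only [hD, hav x hx _ (hs k), hWw x (mem_closedBall_zero_iff.2 (by linarith))]
      nlinarith [cut_nn x]
    · simp [hD, cut_zero (not_le.1 hx).le]
  have hDK : ∀ k, ∫ x, D k x ≤ s k * K := fun k => by
    simp only [hD]
    have h0 : Integrable fun x => (cut x * ∫ t, g t • W (x - s k • t)) - cut x * W x :=
      (hA1 k).1.sub hWi
    rw [integral_add h0 (hX.const_mul _), integral_sub (hA1 k).1 hWi, integral_const_mul]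
    have h1 := mul_le_mul_of_nonneg_left hL3 (hs k).1
    have h2 : s k ^ 2 ≤ s k := by nlinarith [(hs k).1, (hs k).2]
    have h3 := mul_le_mul_of_nonneg_left h2 (mul_nonneg hA hX0)
    have h4 := (hA1 k).2
    simp only [K]
    linarith
  have hU : ∀ x ∈ ball (0 : E n) 1, ∀ k : ℕ, -w x ≤ D k x + c * (1 + k) := fun x hx k => by
    have hx1 := (mem_ball_zero_iff.1 hx).le
    have h1 := hg.logb (w := w) (x := x) (L := G * L) hA one_pos
      (fun z hz => hw z (hsub hx1 (by norm_num) hz)) (by
      obtain ⟨h4, h5⟩ := BPSH.ker_int hg (by norm_num) hx hw0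
      rw [← integral_sub_left_eq_self _ volume x]
      simp only [sub_sub_cancel, smul_eq_mul]
      rw [← setIntegral_eq_integral_of_forall_compl_eq_zero (s := closedBall (0 : E n) 4)
        fun z hz => by rw [h4 z hz, zero_mul]]
      have h7 := mul_le_mul_of_nonneg_left hwL hG0
      rw [← integral_const_mul] at h7
      refine (neg_le_neg h7).trans ?_
      rw [← integral_neg]
      refine setIntegral_mono_on (((hw0.neg.integrableOn_compact
        (isCompact_closedBall 0 4)).const_mul _).neg) h5.integrableOn measurableSet_closedBall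
        fun z hz => ?_
      have h9 : g (x - z) ≤ G := (le_abs_self _).trans (hG _)
      nlinarith [(hw z hz).2.1]) (hs0 k) (hs k).2
    have h2 : Real.log (1 / s k) = k := by simp [hsdef]
    rw [h2] at h1
    simp only [hD, cut_one hx1, hav x (by linarith) _ (hs k), hWw x (hb14 hx), hcdef]
    have h3 : 0 ≤ A * s k ^ 2 := by positivity
    have h4 : (0 : ℝ) ≤ k := k.cast_nonneg
    linarith
  obtain ⟨B, hB⟩ := (isCompact_closedBall (0 : E n) 4).exists_bound_of_continuousOn hw0
  obtain ⟨N, hN⟩ := exists_nat_ge (B / c)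
  have hDs : Integrable fun x => ∑ k ∈ Finset.range N,
      Real.exp (α * (c * (2 + k) + 1)) * D k x :=
    integrable_finsetSum _ fun k _ => (hDi k).const_mul _
  have hci : IntegrableOn (fun _ : E n => Real.exp (α * (c + 1))) (ball 0 1) :=
    integrableOn_const measure_ball_lt_top.ne
  have h1 := setIntegral_mono_on (μ := volume) (f := fun z => Real.exp (α * -w z))
    (((continuousOn_const.mul hw0.neg).rexp.integrableOn_compact
      (isCompact_closedBall 0 4)).mono_set hb14) (hci.add hDs.integrableOn) measurableSet_ball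
    fun x hx => pt_exp hα.le (fun k => hD0 k x) (hU x hx) N (by
      have h2 := (neg_le_abs _).trans (hB x (hb14 hx))
      rw [div_le_iff₀ hc] at hN
      linarith)
  refine h1.trans ?_
  simp only [Pi.add_apply]
  rw [integral_add hci hDs.integrableOn, setIntegral_const, smul_eq_mul]
  refine add_le_add le_rfl ((setIntegral_le_integral hDs (.of_forall fun x =>
    Finset.sum_nonneg fun k _ => mul_nonneg (Real.exp_pos _).le (hD0 k x))).trans ?_)
  rw [integral_finsetSum _ fun k _ => (hDi k).const_mul _]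
  refine (Finset.sum_le_sum (g := fun k => Real.exp (1 + α) * K * q ^ k) fun k _ => ?_).trans ?_
  · rw [integral_const_mul]
    refine (mul_le_mul_of_nonneg_left (hDK k) (Real.exp_pos _).le).trans_eq ?_
    have e : Real.exp (α * (c * (2 + k) + 1)) * s k = Real.exp (1 + α) * q ^ k := by
      simp only [hsdef, q]
      rw [← Real.exp_nat_mul, ← Real.exp_add, ← Real.exp_add]
      congr 1
      linear_combination (2 + (k : ℝ)) * hαc
    rw [← mul_assoc, e]
    ring
  · rw [← Finset.mul_sum]
    refine mul_le_mul_of_nonneg_left ?_ (by positivity)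
    rw [← tsum_geometric_of_lt_one hq0 hq1]
    exact (summable_geometric_of_lt_one hq0 hq1).sum_le_tsum _ fun k _ => pow_nonneg hq0 k

/-- Uniform exponential integrability. -/
theorem skoda (M : Mf n) [M.Cpt] {H : M.Fam (Mat n)} (C₀ : ℝ) (hH : M.Met H) :
    ∃ α C : ℝ, 0 < α ∧ 0 < C ∧ ∀ u, M.Sm u → M.Le 0 (C₀ • H + M.hs u) → (∀ x, u x ≤ 0) →
      (∃ x, u x = 0) → ∫ x, Real.exp (α * -u x) ∂M.mu H ≤ C := by
  obtain ⟨-, -, ⟨V, hV⟩, -⟩ := mCOV n M
  obtain ⟨-, hfin, -, -, hint, hch, -⟩ := mMU n M H hH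
  obtain ⟨-, -, hB3, -⟩ := mBD n M H hH
  obtain ⟨C₁, hC₁, hP, -⟩ := mPSH n M H C₀ hH
  have hsub : ∀ a, closedBall (0 : E n) 4 ⊆ (V.e a).target := fun a => by
    simpa [(hV a).1, (hV a).2] using V.sub a
  have hb14 : ball (0 : E n) 1 ⊆ closedBall 0 4 :=
    ball_subset_closedBall.trans (closedBall_subset_closedBall (by norm_num))
  choose K hK1 hK using fun a => hB3 _ (V.mem a) _ (isCompact_closedBall 0 4) (hsub a)
  have hK0 : ∀ a, 0 ≤ K a := fun a => zero_le_one.trans (hK1 a)
  have hcont : ∀ u : M.X → ℝ, M.Sm u → Continuous u := fun u hu =>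
    ((mTR n M).2.2.2.1 ℝ u).1 hu
  have hdet : ∀ a, ContinuousOn (fun z => (H (V.e a) z).det.re) (closedBall 0 4) := fun a z hz =>
    (cd_re (hH.sm _ (V.mem a) z (hsub a hz)).det).continuousAt.continuousWithinAt
  set K' := ∑ a, K a
  have hK' : ∀ a, K a ≤ K' := fun a => Finset.single_le_sum (fun a _ => hK0 a) (Finset.mem_univ a)
  have hK'0 : 0 ≤ K' := Finset.sum_nonneg fun a _ => hK0 a
  obtain ⟨α, C, hα, hC, h⟩ := skoda_loc (n := n) (A := 4 * (|C₀| * K' * n)) (L := K' * C₁)
    (by positivity) (by positivity)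
  refine ⟨α, 1 + V.r * (K' * C), hα, by positivity, fun u hu hp h0 hx => ?_⟩
  have hi := hint ℝ (fun x => Real.exp (α * -u x)) (by have := hcont u hu; fun_prop)
  have hc : ∀ a, ContinuousOn (fun z => -u ((V.e a).symm z)) (closedBall 0 4) := fun a z hz =>
    (hu _ (V.mem a) z (hsub a hz)).continuousAt.continuousWithinAt.neg
  have h1 : ∀ a, ∫ x in (V.e a).symm '' ball 0 1, Real.exp (α * -u x) ∂M.mu H ≤ K' * C := fun a => by
    have h2 := h (u ∘ (V.e a).symm) (fun z hz => by
      have h1 := hu _ (V.mem a) z (hsub a hz)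
      refine ⟨cd_le h1 2, h0 _, fun v => le_trans ?_ (BPSH.lv_ge h1 (C₀ := C₀)
        (hH.pos _ (V.mem a) z (hsub a hz)).posSemidef (hK0 a) (hK a z hz).2.1 ?_ v)⟩
      · have := hK' a
        gcongr
      · have h2 := hp _ (V.mem a) z (hsub a hz)
        simp only [Pi.zero_apply, sub_zero] at h2
        exact h2) (by
      have h6 : ∫ x in (V.e a).symm '' closedBall 0 4, -u x ∂M.mu H ≤ C₁ :=
        (setIntegral_le_integral (hint ℝ _ (hcont u hu).neg)
          (.of_forall fun x => neg_nonneg.2 (h0 x))).trans (by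
            simp only [Pi.neg_apply, integral_neg]; linarith [hP u hu hp h0 hx])
      rw [(hch _ (V.mem a) _ measurableSet_closedBall (hsub a)).2.2.1] at h6
      refine le_trans ?_ (mul_le_mul_of_nonneg_left h6 hK'0)
      rw [← integral_const_mul]
      refine setIntegral_mono_on ((hc a).integrableOn_compact (isCompact_closedBall 0 4))
        ((((hdet a).mul (hc a)).integrableOn_compact (isCompact_closedBall 0 4)).const_mul _)
        measurableSet_closedBall fun z hz => ?_
      have h9 := (hK a z hz).2.2.1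
      have h7 : 0 ≤ (H (V.e a) z).det.re := (inv_nonneg.2 (hK0 a)).trans h9
      rw [inv_le_iff_one_le_mul₀' (one_pos.trans_le (hK1 a))] at h9
      rw [← mul_assoc]
      exact le_mul_of_one_le_left (neg_nonneg.2 (h0 _))
        (h9.trans (mul_le_mul_of_nonneg_right (hK' a) h7)))
    have hc' : ContinuousOn (fun z => Real.exp (α * -u ((V.e a).symm z))) (closedBall 0 4) :=
      (continuousOn_const.mul (hc a)).rexp
    rw [(hch _ (V.mem a) _ measurableSet_ball (hb14.trans (hsub a))).2.2.1]
    refine le_trans ?_ (mul_le_mul_of_nonneg_left h2 hK'0)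
    rw [← integral_const_mul]
    exact setIntegral_mono_on
      ((((hdet a).mul hc').integrableOn_compact (isCompact_closedBall 0 4)).mono_set hb14)
      (((hc'.integrableOn_compact (isCompact_closedBall 0 4)).mono_set hb14).const_mul K')
      measurableSet_ball fun z hz => mul_le_mul_of_nonneg_right
        ((hK a z (hb14 hz)).2.2.2.trans (hK' a)) (Real.exp_pos _).le
  have hm := fun a => (hch _ (V.mem a) _ measurableSet_ball (hb14.trans (hsub a))).1
  have h2 : ∫ x, Real.exp (α * -u x) ∂M.mu H ≤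
      ∑ a, ∫ x in (V.e a).symm '' ball 0 1, Real.exp (α * -u x) ∂M.mu H := by
    simp only [← integral_indicator (hm _)]
    rw [← integral_finsetSum _ fun a _ => hi.indicator (hm a)]
    refine integral_mono hi (integrable_finsetSum _ fun a _ => hi.indicator (hm a)) fun x => ?_
    obtain ⟨b, h3, h4, -⟩ := V.cov x
    have := Finset.single_le_sum (f := fun a => ((V.e a).symm '' ball 0 1).indicator
      (fun x => Real.exp (α * -u x)) x)
      (fun a _ => indicator_nonneg (fun x _ => (Real.exp_pos _).le) x) (Finset.mem_univ b)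
    rwa [indicator_of_mem (show x ∈ (V.e b).symm '' ball 0 1 from
      ⟨_, by simpa [(hV b).1, (hV b).2] using h4, (V.e b).left_inv h3⟩)] at this
  have h3 := Finset.sum_le_card_nsmul _ _ _ fun a (_ : a ∈ Finset.univ) => h1 a
  simp only [Finset.card_univ, Fintype.card_fin, nsmul_eq_mul] at h3
  linarith

/-- Uniform bounds for all powers. -/
theorem pshp (M : Mf n) [M.Cpt] {H : M.Fam (Mat n)} (C₀ : ℝ) (p : ℕ) (hH : M.Met H) :
    ∃ C : ℝ, 0 < C ∧ ∀ u, M.Sm u → M.Le 0 (C₀ • H + M.hs u) → (∀ x, u x ≤ 0) →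
      (∃ x, u x = 0) → ∫ x, |u x| ^ p ∂M.mu H ≤ C := by
  obtain ⟨α, C, hα, hC, h⟩ := skoda M C₀ hH
  obtain ⟨-, -, -, -, hint, -⟩ := mMU n M H hH
  refine ⟨p.factorial / α ^ p * C, by positivity, fun u hu hp h0 hx => ?_⟩
  have hc : Continuous u := ((mTR n M).2.2.2.1 ℝ u).1 hu
  refine le_trans ?_ (mul_le_mul_of_nonneg_left (h u hu hp h0 hx) (by positivity))
  rw [← integral_const_mul]
  refine integral_mono (hint ℝ _ (by fun_prop)) (hint ℝ _ (by fun_prop)) fun x => ?_
  have h1 := Real.pow_div_factorial_le_exp (α * -u x) (mul_nonneg hα.le (neg_nonneg.2 (h0 x))) p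
  have h2 : (0 : ℝ) < p.factorial := by positivity
  simp only [abs_of_nonpos (h0 x)]
  rw [div_le_iff₀ h2, mul_pow] at h1
  rw [div_mul_eq_mul_div, le_div_iff₀ (by positivity)]
  linarith

end Pool.Agent.Lib.GH76
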