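import Pool.Agent.Lib.RB.Nef

/-! Project rb9: the Ricci iteration and the telescoping sum. -/

open scoped Classical Topology ContDiff ComplexOrder Matrix
open Set MeasureTheory Complex Metric Filter

noncomputable section

namespace Pool.Agent.Lib.GH76

open Pool.Agent.Lib.SV (E)
open Pool.Agent.Lib.HS32 Pool.Agent.Lib.HS32.Mf Pool.Agent.Lib.HS76

variable {n : ℕ}

/-- The iteration. -/
structure It (M : Mf n) (H : M.Fam (Mat n)) (g : ℕ → M.Fam (Mat n)) (u p : ℕ → M.X → ℝ) :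
    Prop where
  g0 : g 0 = H
  u0 : u 0 = fun _ => 0
  p0 : p 0 = fun _ => 0
  sm : ∀ j, M.Sm (u j)
  kae : ∀ j, M.Kae (g j)
  gs : ∀ j, g (j + 1) = (1 / 2 : ℝ) • g j - M.ric H + M.hs (u (j + 1))
  ps : ∀ j, p (j + 1) = fun x => p j x / 2 + u (j + 1) x
  det : ∀ j x, M.dq H (g j) x = Real.exp (u j x)

variable {M : Mf n} {H h : M.Fam (Mat n)} {g : ℕ → M.Fam (Mat n)} {u p : ℕ → M.X → ℝ}

theorem iter (hH : M.Kae H) (hN : ∀ T, M.Kae T → ∃ u, M.Sm u ∧ M.Kae (T - M.ric H + M.hs u) ∧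
    ∀ x, M.dq H (T - M.ric H + M.hs u) x = Real.exp (u x)) : ∃ g u p, It M H g u p := by
  choose F h1 h2 h3 using fun T : {T // M.Kae T} => hN _ (T.2.smul (c := 1 / 2) one_half_pos)
  let G : ℕ → {T // M.Kae T} := fun j => Nat.rec ⟨H, hH⟩ (fun _ T => ⟨_, h2 T⟩) j
  let U : ℕ → M.X → ℝ := fun j => Nat.casesOn j (fun _ => 0) fun j => F (G j)
  let P : ℕ → M.X → ℝ := fun j => Nat.rec (fun _ => 0) (fun j q x => q x / 2 + U (j + 1) x) j
  refine ⟨fun j => (G j).1, U, P, rfl, rfl, rfl, fun j => ?_, fun j => (G j).2, fun j => rfl,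
    fun j => rfl, fun j x => ?_⟩
  · cases j with
    | zero => exact sm_const 0
    | succ j => exact h1 _
  · cases j with
    | zero => exact hH.toMet.dq_self.trans Real.exp_zero.symm
    | succ j => exact h3 _ x

namespace It

theorem hH (I : It M H g u p) : M.Kae H := I.g0 ▸ I.kae 0

theorem smp (I : It M H g u p) (j : ℕ) : M.Sm (p j) := by
  induction j with
  | zero => rw [I.p0]; exact sm_const 0
  | succ j ih => rw [I.ps]; exact (ih.div (sm_const 2) fun _ => two_ne_zero).add (I.sm _)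

theorem form (I : It M H g u p) (j : ℕ) : M.All fun e z => g j e z =
    ((1 / 2 : ℝ) ^ j • H - (2 * (1 - (1 / 2) ^ j) : ℝ) • M.ric H + M.hs (p j)) e z := by
  induction j with
  | zero =>
    intro e he z hz
    have h0 : M.Sm fun _ => (0 : ℝ) := sm_const 0
    simp [I.g0, I.p0, ((mLAP n M _ _ h0 h0).1 0 e he z hz).1]
  | succ j ih =>
    intro e he z hz
    have h1 := (I.smp j).const_mul (1 / 2)
    have h2 := ((mLAP n M _ _ h1 (I.sm (j + 1))).1 0 e he z hz).2.1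
    have h3 := ((mLAP n M _ _ (I.smp j) (I.smp j)).1 (1 / 2) e he z hz).2.2.2.1
    have h4 : p (j + 1) = fun x => 1 / 2 * p j x + u (j + 1) x := by
      rw [I.ps]; funext x; ring
    have h5 := ih e he z hz
    simp only [I.gs, h4, Pi.add_apply, Pi.sub_apply, Pi.smul_apply, h2, h3] at h5 ⊢
    rw [h5, pow_succ]
    module

theorem ric (I : It M H g u p) (j : ℕ) : M.All fun e z =>
    M.ric (g (j + 1)) e z = ((1 / 2 : ℝ) • g j - g (j + 1)) e z := by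
  have h1 := (I.kae (j + 1)).toMet
  have h2 := I.det (j + 1)
  rw [I.gs] at h1 h2
  have := RB.ric_sol I.hH.toMet h1 h2
  rwa [← I.gs] at this

end It

theorem tel_mat {A T B : Mat n} (hA : A.PosDef) (hT : T.PosDef) (hB : B.PosSemidef) :
    2 * (A⁻¹ * B).trace.re - (T⁻¹ * B).trace.re ≤ (A⁻¹ * B * A⁻¹ * T).trace.re := by
  have h1 := hT.posSemidef.mul_mul_conjTranspose_same (A⁻¹ - T⁻¹)
  rw [(hA.inv.1.sub hT.inv.1).eq] at h1
  have h2 := (Complex.le_def.1 (tr_mul_nonneg h1 hB)).1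
  have h3 := Matrix.nonsing_inv_mul T (pd_det_ne hT).isUnit
  have h4 := Matrix.mul_nonsing_inv T (pd_det_ne hT).isUnit
  have h5 : (A⁻¹ - T⁻¹) * T * (A⁻¹ - T⁻¹) * B =
      A⁻¹ * T * (A⁻¹ * B) - A⁻¹ * B - A⁻¹ * B + T⁻¹ * B := by
    have e1 : (A⁻¹ - T⁻¹) * T * (A⁻¹ - T⁻¹) * B = A⁻¹ * T * (A⁻¹ * B) - A⁻¹ * (T * T⁻¹) * B -
        T⁻¹ * T * A⁻¹ * B + T⁻¹ * T * T⁻¹ * B := by noncomm_ring
    rw [e1, h3, h4]
    simp only [mul_one, one_mul]
  rw [h5, Matrix.trace_add, Matrix.trace_sub, Matrix.trace_sub, Matrix.trace_mul_comm,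
    ← mul_assoc] at h2
  simp only [add_re, sub_re, zero_re] at h2
  linarith

/-- The normalized trace. -/
def sS (h : M.Fam (Mat n)) (g : ℕ → M.Fam (Mat n)) (j : ℕ) (x : M.X) : ℝ :=
  (1 / 2) ^ j * M.tr (g j) h x

/-- The defect in the formula of Chern and Lu. -/
def sY (h : M.Fam (Mat n)) (g : ℕ → M.Fam (Mat n)) (j : ℕ) (x : M.X) : ℝ :=
  (1 / 2) ^ j * (M.lap (g j) (M.tr (g j) h) x - M.ip (g j) h (M.ric (g j)) x)

namespace It

theorem smS (I : It M H g u p) (hh : M.Met h) (j : ℕ) : M.Sm (sS h g j) :=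
  ((mINV n M _ (I.kae j).toMet).1 h hh.toTen).2.1.const_mul _

theorem S_nn (I : It M H g u p) (hh : M.Met h) (j : ℕ) (x : M.X) : 0 ≤ sS h g j x :=
  mul_nonneg (by positivity) ((I.kae j).toMet.tr_nonneg hh.nonneg x)

theorem smY (I : It M H g u p) (hh : M.Met h) (j : ℕ) : M.Sm (sY h g j) := by
  have hG := (I.kae j).toMet
  have h1 := ((mINV n M _ hG).1 h hh.toTen).2.1
  exact (((mLAP n M _ _ h1 h1).2.2 _ hG).1.sub ((mINV n M _ hG).2.2.1 _ _ hh.toTen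
    ((mHES n M).2.2.2.2.2.2.2.2.1 _ hG).toTen).2.1).const_mul _

theorem lapS (I : It M H g u p) (hh : M.Met h) (j : ℕ) (x : M.X) :
    sY h g (j + 1) x + sS h g (j + 1) x - sS h g j x ≤ M.lap (g (j + 1)) (sS h g (j + 1)) x := by
  have hG := (I.kae (j + 1)).toMet
  have h1 := ((mINV n M _ hG).1 h hh.toTen).2.1
  have h2 := (((mLAP n M _ _ h1 h1).2.2 _ hG).2.2.1 x ((1 / 2) ^ (j + 1))).2.2.2.1
  have h3 := tel_mat (hG.ev_pos x) (((I.kae j).toMet.smul one_half_pos).ev_pos x)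
    (hh.ev_pos x).posSemidef
  have h4 : ((M.ev ((1 / 2 : ℝ) • g j) x)⁻¹ * M.ev h x).trace.re = 2 * M.tr (g j) h x := by
    have e : (M.ev ((1 / 2 : ℝ) • g j) x)⁻¹ = (2 : ℝ) • (M.ev (g j) x)⁻¹ := by
      refine Matrix.inv_eq_left_inv ?_
      rw [show M.ev ((1 / 2 : ℝ) • g j) x = (1 / 2 : ℝ) • M.ev (g j) x from rfl, Matrix.smul_mul,
        Matrix.mul_smul, smul_smul, Matrix.nonsing_inv_mul _ ((I.kae j).toMet.ev_det x).isUnit]
      norm_num
    rw [e, Matrix.smul_mul, Matrix.trace_smul, smul_re, smul_eq_mul, Mf.tr]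
  have h5 : 2 * M.tr (g (j + 1)) h x - 2 * M.tr (g j) h x ≤
      M.ip (g (j + 1)) h ((1 / 2 : ℝ) • g j) x := h4 ▸ h3
  have h6 := mul_le_mul_of_nonneg_left h5 (pow_pos one_half_pos (j + 1)).le
  unfold sS
  rw [h2, sY, ip_congr (S' := h) (fun _ _ _ _ => rfl) (fun _ _ _ _ => rfl) (I.ric j), ip_sub,
    hG.ip_self]
  rw [pow_succ] at h6 ⊢
  linarith

variable [M.Cpt]

theorem S_le (I : It M H g u p) (hh : M.Met h) (hY : ∀ j x, 0 ≤ sY h g (j + 1) x) {C : ℝ}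
    (hC : ∀ x, M.tr H h x ≤ C) (j : ℕ) : ∀ x, sS h g j x ≤ C := by
  induction j with
  | zero => simpa [sS, I.g0] using hC
  | succ j ih =>
    have h1 := I.smS hh (j + 1)
    obtain ⟨y, hy⟩ := h1.exists_max
    have h2 := ((((mLAP n M _ _ h1 h1).2.2 _ (I.kae (j + 1)).toMet).2.2.1 y 0).2.2.2.2.2.2.2.2.1
      (Eventually.of_forall hy)).1
    exact fun x => by linarith [hy x, I.lapS hh j y, hY j y, ih y]

theorem int_eq (I : It M H g u p) (j : ℕ) (f : M.X → ℝ) :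
    ∫ x, f x ∂M.mu (g j) = ∫ x, Real.exp (u j x) * f x ∂M.mu H := by
  simpa only [I.det] using
    ((mMU n M H I.hH.toMet).2.2.2.2.2.2 _ (I.kae j).toMet).2.1 f

/-- The backward sequence of resolvents. -/
theorem back (I : It M H g u p) (hR : HS.St_RESV) (hn : 0 < n) (J : ℕ) : ∀ f, M.Sm f →
    (∀ x, 0 < f x) → ∃ ρ b : ℕ → M.X → ℝ, b J = f ∧ (∀ j ≤ J, M.Sm (b j) ∧ ∀ x, 0 < b j x) ∧
      ∀ j < J, M.Sm (ρ j) ∧ (∀ x, 0 < ρ j x) ∧
        (∀ x, ρ j x - M.lap (g (j + 1)) (ρ j) x = b (j + 1) x) ∧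
        b j = fun x => ρ j x * Real.exp (u (j + 1) x - u j x) := by
  induction J with
  | zero =>
    exact fun f h1 h2 => ⟨fun _ => f, fun _ => f, rfl, fun _ _ => ⟨h1, h2⟩,
      fun j hj => absurd hj j.not_lt_zero⟩
  | succ J ih =>
    intro f h1 h2
    obtain ⟨r, r1, r2⟩ := hR n M _ f 1 hn (I.kae (J + 1)) h1 one_pos
    simp only [one_mul] at r2
    have r3 : ∀ x, 0 < r x := by
      obtain ⟨y, hy⟩ := r1.exists_min
      have h3 := ((((mLAP n M _ _ r1 r1).2.2 _ (I.kae (J + 1)).toMet).2.2.1 y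
        0).2.2.2.2.2.2.2.2.2 (Eventually.of_forall hy)).1
      exact fun x => by linarith [hy x, r2 y, h2 y]
    obtain ⟨ρ, b, a1, a2, a3⟩ := ih _ (r1.mul ((I.sm (J + 1)).sub (I.sm J)).exp)
      fun x => mul_pos (r3 x) (Real.exp_pos _)
    refine ⟨Function.update ρ J r, Function.update b (J + 1) f, Function.update_self .., fun j hj => ?_,
      fun j hj => ?_⟩
    · rcases hj.eq_or_lt with rfl | hj
      · rw [Function.update_self]; exact ⟨h1, h2⟩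
      · rw [Function.update_of_ne hj.ne]; exact a2 j (Nat.lt_succ_iff.1 hj)
    · rw [Function.update_of_ne hj.ne]
      rcases (Nat.lt_succ_iff.1 hj).eq_or_lt with rfl | hj
      · rw [Function.update_self, Function.update_self]; exact ⟨r1, r3, r2, a1⟩
      · rw [Function.update_of_ne hj.ne, Function.update_of_ne (Nat.succ_lt_succ hj).ne]
        exact a3 j hj

/-- One step of the backward sequence against a test function. -/
theorem step (I : It M H g u p) {j : ℕ} {r b' : M.X → ℝ} (r1 : M.Sm r)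
    (r2 : ∀ x, r x - M.lap (g (j + 1)) r x = b' x) {f : M.X → ℝ} (hf : M.Sm f) :
    ∫ x, b' x * f x ∂M.mu (g (j + 1)) =
      ∫ x, r x * (f x - M.lap (g (j + 1)) f x) ∂M.mu (g (j + 1)) := by
  have hG := I.kae (j + 1)
  have hI := (mMU n M _ hG.toMet).2.2.2.2.1 ℝ
  have h1 := ((mGRN n M).2 _ f r hG hf r1).2.2
  have h2 := ((mLAP n M _ _ hf hf).2.2 _ hG.toMet).1
  have h3 := ((mLAP n M _ _ r1 r1).2.2 _ hG.toMet).1
  simp only [← r2, sub_mul, mul_sub]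
  rw [integral_sub (hI _ (r1.mul hf).continuous) (hI _ (h3.mul hf).continuous),
    integral_sub (hI _ (r1.mul hf).continuous) (hI _ (r1.mul h2).continuous), h1]
  simp only [mul_comm]

theorem shift (I : It M H g u p) (j : ℕ) (r f : M.X → ℝ) :
    ∫ x, r x * Real.exp (u (j + 1) x - u j x) * f x ∂M.mu (g j) =
      ∫ x, r x * f x ∂M.mu (g (j + 1)) := by
  rw [I.int_eq, I.int_eq]
  refine integral_congr_ae (.of_forall fun x => ?_)
  simp only [Real.exp_sub]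
  field_simp

/-- The telescoping sum. -/
theorem tel (I : It M H g u p) (hR : HS.St_RESV) (hn : 0 < n) (hh : M.Met h)
    (hY : ∀ j x, 0 ≤ sY h g (j + 1) x) {C : ℝ} (hC : ∀ x, M.tr H h x ≤ C) (J : ℕ) :
    ∃ ρ b : ℕ → M.X → ℝ, (b J = fun _ => (∫ x, Real.exp (u J x) ∂M.mu H)⁻¹) ∧
      (∀ j ≤ J, M.Sm (b j) ∧ (∀ x, 0 < b j x) ∧ ∫ x, b j x ∂M.mu (g j) = 1) ∧
      (∀ j < J, M.Sm (ρ j) ∧ (∀ x, 0 < ρ j x) ∧
        (∀ x, ρ j x - M.lap (g (j + 1)) (ρ j) x = b (j + 1) x) ∧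
        (b j = fun x => ρ j x * Real.exp (u (j + 1) x - u j x)) ∧
        ∫ x, ρ j x ∂M.mu (g (j + 1)) = 1) ∧
      ∑ j ∈ Finset.range J, ∫ x, ρ j x * sY h g (j + 1) x ∂M.mu (g (j + 1)) ≤ C := by
  obtain ⟨-, -, hop, -, hI, -⟩ := mMU n M H I.hH.toMet
  have hV : 0 < ∫ x, Real.exp (u J x) ∂M.mu H :=
    integral_exp_pos (hI ℝ _ (I.sm J).exp.continuous)
  obtain ⟨ρ, b, a1, a2, a3⟩ := I.back hR hn J _ (sm_const _) fun _ => inv_pos.2 hV
  have h1 : ∀ j < J, ∫ x, b j x ∂M.mu (g j) = ∫ x, ρ j x ∂M.mu (g (j + 1)) := fun j hj => by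
    simpa [(a3 j hj).2.2.2] using I.shift j (ρ j) fun _ => 1
  have h2 : ∀ j < J, ∫ x, b (j + 1) x ∂M.mu (g (j + 1)) = ∫ x, ρ j x ∂M.mu (g (j + 1)) :=
    fun j hj => by
      have h0 : M.Sm fun _ => (1 : ℝ) := sm_const 1
      simpa [fun x => (((mLAP n M _ _ h0 h0).2.2 _ (I.kae (j + 1)).toMet).2.2.1 x 1).1] using
        I.step (a3 j hj).1 (a3 j hj).2.2.1 h0
  have h3 : ∀ j ≤ J, ∫ x, b j x ∂M.mu (g j) = 1 := fun j hj => by
    induction hj using Nat.decreasingInduction with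
    | self => rw [a1, I.int_eq, integral_mul_const, mul_inv_cancel₀ hV.ne']
    | of_succ j hj ih => rw [h1 j hj, ← h2 j hj, ih]
  refine ⟨ρ, b, a1, fun j hj => ⟨(a2 j hj).1, (a2 j hj).2, h3 j hj⟩, fun j hj =>
    ⟨(a3 j hj).1, (a3 j hj).2.1, (a3 j hj).2.2.1, (a3 j hj).2.2.2, (h1 j hj).symm.trans
      (h3 j hj.le)⟩, ?_⟩
  have h4 : ∀ j ∈ Finset.range J, ∫ x, ρ j x * sY h g (j + 1) x ∂M.mu (g (j + 1)) ≤
      ∫ x, b j x * sS h g j x ∂M.mu (g j) -
        ∫ x, b (j + 1) x * sS h g (j + 1) x ∂M.mu (g (j + 1)) := fun j hj => by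
    obtain ⟨r1, r2, r3, r4⟩ := a3 j (Finset.mem_range.1 hj)
    have hG := (I.kae (j + 1)).toMet
    have hI := (mMU n M _ hG).2.2.2.2.1 ℝ
    have s1 := I.smS hh (j + 1)
    have s2 := r1.mul (s1.sub ((mLAP n M _ _ s1 s1).2.2 _ hG).1)
    have s3 := r1.mul (I.smS hh j)
    rw [r4, I.shift, I.step r1 r3 s1, ← integral_sub (hI _ s3.continuous) (hI _ s2.continuous)]
    refine integral_mono (hI _ (r1.mul (I.smY hh _)).continuous) (hI _ (s3.sub s2).continuous)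
      fun x => ?_
    simp only [← mul_sub]
    exact mul_le_mul_of_nonneg_left (by linarith [I.lapS hh j x]) (r2 x).le
  refine (Finset.sum_le_sum h4).trans ?_
  rw [Finset.sum_range_sub' fun j => ∫ x, b j x * sS h g j x ∂M.mu (g j)]
  have h5 : 0 ≤ ∫ x, b J x * sS h g J x ∂M.mu (g J) :=
    integral_nonneg fun x => mul_nonneg ((a2 J le_rfl).2 x).le (I.S_nn hh J x)
  have hI := (mMU n M _ (I.kae 0).toMet).2.2.2.2.1 ℝ
  have h6 := integral_mono (hI _ ((a2 0 J.zero_le).1.mul (I.smS hh 0)).continuous)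
    (hI _ ((a2 0 J.zero_le).1.mul (sm_const C)).continuous) fun x =>
    mul_le_mul_of_nonneg_left (I.S_le hh hY hC 0 x) ((a2 0 J.zero_le).2 x).le
  rw [integral_mul_const, h3 0 J.zero_le] at h6
  linarith

end It

end Pool.Agent.Lib.GH76
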